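import Pool.Agent.H46.Nev.Closed

set_option autoImplicit false

/-!
# Nevanlinna currents of a second lift charging the singular locus

The entire curve `f(t) = [1 : t : e^t]` in `X = P²`: every Nevanlinna current of its second lift
`f_[2] : ℂ → X_2` gives the singular locus `X_2^[sing] = D_2` mass bounded below by a positive
constant, and such currents exist (along a subsequence of every sequence of radii).
This is a negative answer to Q1 of `MP_0aacdf_an`.
-/

open MeasureTheory Filter Topology
open scoped Real

namespace Pool.Agent.Results.MP_0aacdf_an.SingularLocusCharged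

open Pool.Agent.H46.Nev

theorem result :
    -- the homogeneous lifts of `f`, `f_[1]`, `f_[2]` are holomorphic without zeros
    (IsHolLift F0 ∧ IsHolLift (lift1 F0) ∧ IsHolLift (lift2 F0)) ∧
    -- `f_[2]` maps to `X_2`; the singular locus `D_2` is a compact subset of `X_2`
    ((∀ t, f2 F0 t ∈ X2) ∧ D2 ⊆ X2 ∧ IsCompact D2) ∧
    -- every sequence of radii has a subsequence defining a Nevanlinna current of `f_[2]`
    (∀ r : ℕ → ℝ, Tendsto r atTop atTop → ∃ (k : ℕ → ℕ) (μ : Measure Y),
      StrictMono k ∧ IsNevanlinnaTrace (f2 F0) (areaDensity F0) (fun j => r (k j)) μ) ∧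
    -- the trace measure of every Nevanlinna current of `f_[2]` has mass at least `c` on `D_2`
    ∃ c : ℝ, 0 < c ∧ ∀ (r : ℕ → ℝ) (μ : Measure Y),
      IsNevanlinnaTrace (f2 F0) (areaDensity F0) r μ → IsProbabilityMeasure μ ∧
        ENNReal.ofReal c ≤ μ D2 := by
  refine ⟨⟨⟨differentiable_F0, F0_ne⟩, ⟨differentiable_lift1, lift1_ne⟩,
    ⟨differentiable_lift2, lift2_ne⟩⟩, ⟨mem_X2, D2_subset, isCompact_D2⟩, fun r hr => ?_,
    c0, c0_pos, fun r μ h => ?_⟩
  · obtain ⟨k, μ, hk, -, h⟩ := exists_trace r hr
    exact ⟨k, μ, hk, h⟩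
  · have := prob_of_trace h
    exact ⟨this, (trace_lower h).trans (measure_mono Lam_subset)⟩

end Pool.Agent.Results.MP_0aacdf_an.SingularLocusCharged
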